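import Pool.Agent.R429.DM.Ker
import Pool.Agent.TH270.MS.GrowthF
import Pool.Agent.TH941.Newform

/-!
# The original form of the conjecture of Birch and Swinnerton-Dyer for all density means

Let `E : y² = x³ + a x + b` be an elliptic curve over `ℚ`, `a, b ∈ ℤ`, let `F` be the entire continuation of
its incomplete `L`-series, `f` its newform and `N_p` the number of affine points modulo `p`, so that
`#E(𝔽_p) = N_p + 1`. Let `P(x) = ∏_{p ≤ x, p ∤ 2Δ} #E(𝔽_p)/p` be the original product of Birch and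
Swinnerton-Dyer, with the sharp cut-off. For ANY real function `k ∈ L²(0, 1)`, `k ≠ 0`, which may change sign, let

`M_k(X) = ∫_0^1 k(u) log P(X^u) du = ∑_{p ≤ X} K (log p / log X) log (#E(𝔽_p)/p)`, `K(v) = ∫_v^1 k(u) du`,

`κ = ∫_0^1 k(u) du`, `ℓ = ∫_0^1 k(u) log u du` (the case `k = 1`, `K(v) = 1 - v` is the logarithmic
mean). It is shown, for every elliptic curve:

* `F` has no zeros with `Re s > 1` (the Riemann hypothesis for `E`) if and only if `M_k(X) = O(X^ε)` for all
  `ε > 0` and almost all `X`;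
* if `F` has no zeros with `Re s > 1` and `m = ord_{s=1} F`, then
  `M_k(X) = κ m log log X + κ log (√2 e^{mγ} m! / F^{(m)}(1)) + m ℓ + o(1)`;
* if `κ ≠ 0`, then for every real `ρ` the following are EQUIVALENT: `F` has no zeros with `Re s > 1` and
  `ρ = ord_{s=1} F`; `M_k(X) - κ ρ log log X` converges; it is bounded; `M_k(X) = (κρ + o(1)) log log X` for
  almost all `X`;
* if `κ = 0`, then the following are equivalent: `F` has no zeros with `Re s > 1`; `M_k(X)` converges; `M_k(X)` is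
  bounded. If also `ℓ ≠ 0`, then `F` has no zeros with `Re s > 1` and `ρ = ord_{s=1} F` if and only if
  `M_k(X) → ρ ℓ`.

In particular (`ρ` the rank) the rank form of the conjecture together with the Riemann hypothesis for `E` is
equivalent to the convergence of `M_k(X) - κ rank(E) log log X`, and, for `κ = 0 ≠ ℓ`, to the numerical statement
`M_k(X) → rank(E) ℓ`, which contains no other unknown quantity. For instance
`∫_0^{1/2} log P(X^u) du - ∫_{1/2}^1 log P(X^u) du → - rank(E) log 2`.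

For the sharp product itself (the pointwise asymptotic) only the implication to the left is known (Goldfeld 1982),
and the asymptotic is stronger than the Riemann hypothesis (Kuo-Murty and Conrad, 2005); here is an equivalence for
every kernel.

Proof. (1) Under the Riemann hypothesis `log P(e^t) = m log t + const + o(1)` in the mean square (helper270's mean
square law), and Cauchy's inequality gives the asymptotic formula (helper765). (2) For the converse see
`Pool.Agent.R429.DM` (and the result `MP_3283e1_nt.EveryWeight`): the Laplace transform of `M_k(e^T)` is a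
multiplicative convolution of `K` with the logarithmic derivative of `F`; a zero with `Re s > 1` causes a jump of
this convolution along a ray, unless `K` vanishes near its last point. This works for every kernel, although the
Mellin transform of `K` may have zeros.
-/

set_option autoImplicit false

namespace Pool.Agent.Results.MP_696deb_nt.DensityMeans

open Pool.Agent.W263.BSD Filter Topology Classical MeasureTheory Set
open CongruenceSubgroup UpperHalfPlane
open scoped MatrixGroups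

/-- `P(x)`: the product of `(N_p + 1) / p` over the primes `p ≤ x`, `p ∤ 2Δ`. -/
noncomputable def product (a b : ℤ) (x : ℝ) : ℝ :=
  ∏ p ∈ (Finset.range (⌊x⌋₊ + 1)).filter (GoodPrime a b), (((pointCount a b p : ℝ) + 1) / p)

/-- `M_k(X) = ∫_0^1 k(u) log P(X^u) du`. -/
noncomputable def mean (a b : ℤ) (k : ℝ → ℝ) (X : ℝ) : ℝ :=
  ∫ u in Ioc (0 : ℝ) 1, k u * Real.log (product a b (X ^ u))

/-- The `n`-th Fourier coefficient of `f`. -/
noncomputable def coef {N : ℕ} (f : CuspForm (Gamma0 N : Subgroup (GL (Fin 2) ℝ)) 2) (n : ℕ) : ℂ :=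
  (qExpansion 1 f).coeff n

/-- `f ∈ S_2(Γ₀(N))` is the newform of the elliptic curve `E : y² = x³ + a x + b` of conductor `N`: the
Fourier coefficients `c(n)` of `f` are real with `c(1) = 1`, they satisfy the Hecke relations
`c(mn) = c(m) c(n)` for coprime `m`, `n` and `c(p^(j+2)) = c(p) c(p^(j+1)) - p c(p^j)` (without the last
term if `p ∣ N`), `c(p) = a_p = p - N_p` (`N_p` affine points) for all primes `p ∤ 2Δ`, `|c(p)| ≤ 2 √p` for
all `p ∤ N` (Hasse) and `c(p) = 0, 1, -1` for `p ∣ N`. -/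
structure IsNewformOf (a b : ℤ) (N : ℕ) (f : CuspForm (Gamma0 N : Subgroup (GL (Fin 2) ℝ)) 2) :
    Prop where
  one : coef f 1 = 1
  real : ∀ n, (coef f n).im = 0
  mul : ∀ m n : ℕ, Nat.Coprime m n → coef f (m * n) = coef f m * coef f n
  pow : ∀ p j : ℕ, p.Prime → coef f (p ^ (j + 2)) = coef f p * coef f (p ^ (j + 1)) -
      (if p ∣ N then 0 else (p : ℂ) * coef f (p ^ j))
  points : ∀ p : ℕ, GoodPrime a b p → coef f p = (p : ℂ) - (pointCount a b p : ℂ)
  good : ∀ p : ℕ, p.Prime → ¬ p ∣ N → ‖coef f p‖ ≤ 2 * Real.sqrt p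
  bad : ∀ p : ℕ, p.Prime → p ∣ N → coef f p = 0 ∨ coef f p = 1 ∨ coef f p = -1

/-- The rank of the group of rational points of `y² = x³ + a x + b`. -/
noncomputable def rank (a b : ℤ) : ℕ :=
  Module.finrank ℤ
    (WeierstrassCurve.Affine.Point
      (WeierstrassCurve.toAffine
        ({ a₁ := 0, a₂ := 0, a₃ := 0, a₄ := (a : ℚ), a₆ := (b : ℚ) } : WeierstrassCurve ℚ)))

/-- `F` has no zeros with `Re s > 1`. -/
def NoZeros (F : ℂ → ℂ) : Prop := ∀ s : ℂ, 1 < s.re → F s ≠ 0

/-- The statement `P` holds for almost all (Lebesgue measure) sufficiently large real numbers. -/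
def AlmostAllLarge (P : ℝ → Prop) : Prop := ∃ X₀ : ℝ, ∀ᵐ X : ℝ, X₀ ≤ X → P X

theorem hecke {a b : ℤ} {N : ℕ} {f : CuspForm (Gamma0 N : Subgroup (GL (Fin 2) ℝ)) 2}
    (hf : IsNewformOf a b N f) : Pool.Agent.TH941.Hecke f where
  one := hf.one
  real := hf.real
  mul := hf.mul
  pow := hf.pow
  good := hf.good
  bad := fun p hp h => by
    rcases hf.bad p hp h with h1 | h1 | h1
    · have h2 : ‖coef f p‖ ≤ 1 := by rw [h1]; simp
      exact h2
    · have h2 : ‖coef f p‖ ≤ 1 := by rw [h1]; simp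
      exact h2
    · have h2 : ‖coef f p‖ ≤ 1 := by rw [h1]; simp
      exact h2

theorem loglog_tendsto : Tendsto (fun X : ℝ => Real.log (Real.log X)) atTop atTop :=
  Real.tendsto_log_atTop.comp Real.tendsto_log_atTop

theorem AlmostAllLarge.of_eventually {P : ℝ → Prop} (h : ∀ᶠ X : ℝ in atTop, P X) :
    AlmostAllLarge P := by
  obtain ⟨X₀, hX₀⟩ := eventually_atTop.1 h
  exact ⟨X₀, ae_of_all _ hX₀⟩

/-- `log log X` is smaller than any power -/
theorem loglog_le {ε C D : ℝ} (hε : 0 < ε) :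
    ∀ᶠ X : ℝ in atTop, C * Real.log (Real.log X) + D ≤ X ^ ε := by
  have h1 : (fun X : ℝ => Real.log (Real.log X)) =o[atTop] fun X => X ^ ε := by
    have e1 : (fun X : ℝ => Real.log (Real.log X)) =O[atTop] fun X => Real.log X := by
      refine Asymptotics.IsBigO.of_bound 1 ?_
      filter_upwards [eventually_ge_atTop (Real.exp 1)] with X hX
      have hl : 1 ≤ Real.log X := by
        rw [Real.le_log_iff_exp_le (lt_of_lt_of_le (Real.exp_pos 1) hX)]
        exact hX
      have h2 : 0 ≤ Real.log (Real.log X) := Real.log_nonneg hl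
      rw [Real.norm_eq_abs, Real.norm_eq_abs, abs_of_nonneg h2, abs_of_nonneg (by linarith), one_mul]
      exact (Real.log_le_sub_one_of_pos (by linarith)).trans (by linarith)
    exact e1.trans_isLittleO (isLittleO_log_rpow_atTop hε)
  filter_upwards [h1.def (show (0 : ℝ) < 1 / (|C| + |D| + 1) by positivity),
    loglog_tendsto.eventually_ge_atTop 1, eventually_gt_atTop 0] with X h2 h3 h4
  rw [Real.norm_eq_abs, Real.norm_eq_abs, abs_of_nonneg (by linarith),
    abs_of_pos (Real.rpow_pos_of_pos h4 _)] at h2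
  have h5 := mul_le_mul_of_nonneg_left h2 (show 0 ≤ |C| + |D| + 1 by positivity)
  have h6 : (|C| + |D| + 1) * (1 / (|C| + |D| + 1) * X ^ ε) = X ^ ε := by field_simp
  rw [h6] at h5
  have h7 := le_abs_self C
  have h8 := le_abs_self D
  have h9 := abs_nonneg D
  nlinarith

/-- **The conjecture of Birch and Swinnerton-Dyer for density means.** -/
theorem result (a b : ℤ) (hΔ : 4 * a ^ 3 + 27 * b ^ 2 ≠ 0) (F : ℂ → ℂ) (hF : IsLSeries a b F)
    (N : ℕ) [NeZero N] (f : CuspForm (Gamma0 N : Subgroup (GL (Fin 2) ℝ)) 2)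
    (hf : IsNewformOf a b N f)
    (k : ℝ → ℝ) (hk : MemLp k 2 (volume.restrict (Ioc (0 : ℝ) 1)))
    (hk0 : ¬ ∀ᵐ u : ℝ, u ∈ Ioc (0 : ℝ) 1 → k u = 0)
    (κ ℓ : ℝ) (hκ : κ = ∫ u in Ioc (0 : ℝ) 1, k u) (hℓ : ℓ = ∫ u in Ioc (0 : ℝ) 1, k u * Real.log u) :
    (∀ X : ℝ, 1 < X → mean a b k X = ∑ p ∈ (Finset.range (⌊X⌋₊ + 1)).filter (GoodPrime a b),
      (∫ u in Ioc (Real.log p / Real.log X) 1, k u) *
        Real.log (((pointCount a b p : ℝ) + 1) / p)) ∧
    (NoZeros F ↔ ∀ ε : ℝ, 0 < ε → AlmostAllLarge fun X : ℝ => |mean a b k X| ≤ X ^ ε) ∧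
    (∀ m : ℕ, NoZeros F → analyticOrderAt F 1 = m → 0 < (iteratedDeriv m F 1).re ∧
      Tendsto (fun X : ℝ => mean a b k X - κ * m * Real.log (Real.log X)) atTop
        (𝓝 (κ * Real.log (√2 * Real.exp (m * Real.eulerMascheroniConstant) * m.factorial /
          (iteratedDeriv m F 1).re) + m * ℓ))) ∧
    (κ ≠ 0 → (∀ ρ : ℝ, List.TFAE [
        NoZeros F ∧ ∃ m : ℕ, ρ = m ∧ analyticOrderAt F 1 = m,
        ∃ L : ℝ, Tendsto (fun X : ℝ => mean a b k X - κ * ρ * Real.log (Real.log X)) atTop (𝓝 L),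
        ∃ B : ℝ, ∀ᶠ X : ℝ in atTop, |mean a b k X - κ * ρ * Real.log (Real.log X)| ≤ B,
        ∀ ε : ℝ, 0 < ε → AlmostAllLarge fun X : ℝ =>
          |mean a b k X - κ * ρ * Real.log (Real.log X)| ≤ ε * Real.log (Real.log X)]) ∧
      ((NoZeros F ∧ analyticOrderAt F 1 = rank a b) ↔ ∃ L : ℝ,
        Tendsto (fun X : ℝ => mean a b k X - κ * rank a b * Real.log (Real.log X)) atTop (𝓝 L))) ∧
    (κ = 0 → List.TFAE [
        NoZeros F,
        ∃ L : ℝ, Tendsto (mean a b k) atTop (𝓝 L),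
        ∃ B : ℝ, ∀ᶠ X : ℝ in atTop, |mean a b k X| ≤ B]) ∧
    (κ = 0 → ℓ ≠ 0 →
      (∀ ρ : ℝ, (NoZeros F ∧ ∃ m : ℕ, ρ = m ∧ analyticOrderAt F 1 = m) ↔
        Tendsto (mean a b k) atTop (𝓝 (ρ * ℓ))) ∧
      ((NoZeros F ∧ analyticOrderAt F 1 = rank a b) ↔
        Tendsto (mean a b k) atTop (𝓝 (rank a b * ℓ)))) := by
  have hrs : Tendsto (rsSum a b) atTop (𝓝 0) :=
    (hecke hf).rsSum_tendsto hΔ fun p hp => hf.points p hp
  obtain ⟨C₀, n₀, hg⟩ := Pool.Agent.TH270.MS.EQ.growth_F hΔ hF (hecke hf) fun p hp => hf.points p hp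
  have hki : IntegrableOn k (Ioc 0 1) := hk.integrable (by norm_num)
  have hmean : ∀ X : ℝ, mean a b k X = Pool.Agent.R765.DM.dmean a b k X := fun X => rfl
  obtain ⟨m₀, hm₀⟩ := Pool.Agent.W189.ML.order_finite_all hF 1
  -- the law
  have law : ∀ m : ℕ, NoZeros F → analyticOrderAt F 1 = m → 0 < (iteratedDeriv m F 1).re ∧
      Tendsto (fun X : ℝ => mean a b k X - κ * m * Real.log (Real.log X)) atTop
        (𝓝 (κ * Real.log (√2 * Real.exp (m * Real.eulerMascheroniConstant) * m.factorial /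
          (iteratedDeriv m F 1).re) + m * ℓ)) := by
    intro m hz hm
    refine ⟨(Pool.Agent.R765.DM.lead_pos hΔ hF hrs hz hm).1, ?_⟩
    rw [hκ, hℓ]
    exact Pool.Agent.R765.DM.law_of_rh hΔ hF hrs (by norm_num : (0 : ℝ) < 1 / 8) hg hz hm hk
  -- the weighted sum
  have hsum : ∀ X : ℝ, 1 < X → mean a b k X =
      ∑ p ∈ (Finset.range (⌊X⌋₊ + 1)).filter (GoodPrime a b),
      (∫ u in Ioc (Real.log p / Real.log X) 1, k u) *
        Real.log (((pointCount a b p : ℝ) + 1) / p) := fun X hX =>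
    Pool.Agent.R765.DM.dmean_eq_sum hki hX
  set K := Pool.Agent.R429.DM.kK k with hK
  have hKm : Measurable K := (Pool.Agent.R429.DM.kK_cont hki).measurable
  have hKM := Pool.Agent.R429.DM.kK_bdd hki
  have hK0 : ¬ ∀ᵐ u : ℝ, u ∈ Ioc (0 : ℝ) 1 → K u = 0 := fun h =>
    hk0 (Pool.Agent.R429.DM.kK_ne hki h)
  have hKlim : Tendsto K (𝓝[>] 0) (𝓝 κ) := by
    have h1 := (Pool.Agent.R429.DM.kK_cont hki).tendsto 0
    rw [Pool.Agent.R429.DM.kK_zero, ← hκ] at h1
    exact h1.mono_left nhdsWithin_le_nhds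
  have hw : ∀ X : ℝ, 1 < X → Pool.Agent.R429.DM.wtd a b K X = mean a b k X := by
    intro X hX
    rw [hsum X hX]
    unfold Pool.Agent.R429.DM.wtd
    refine Finset.sum_congr rfl fun p hp => ?_
    rw [Finset.mem_filter, Finset.mem_range] at hp
    have hp1 : (1 : ℝ) ≤ p := by exact_mod_cast hp.2.1.one_le
    have hpX : (p : ℝ) ≤ X := by
      have h2 : (p : ℝ) ≤ (⌊X⌋₊ : ℝ) := by exact_mod_cast (by omega : p ≤ ⌊X⌋₊)
      exact h2.trans (Nat.floor_le (by linarith))
    have h1 : 0 ≤ Real.log p := Real.log_nonneg hp1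
    have h2 : Real.log p ≤ Real.log X := Real.log_le_log (by linarith) hpX
    have h3 : 0 < Real.log X := Real.log_pos hX
    rw [hK, Pool.Agent.R429.DM.kK_eq (by positivity) (by rw [div_le_one h3]; exact h2)]
  -- growth implies the Riemann hypothesis
  have hrh : (∀ ε : ℝ, 0 < ε → AlmostAllLarge fun X : ℝ => |mean a b k X| ≤ X ^ ε) → NoZeros F := by
    intro h
    refine Pool.Agent.R429.DM.wtd_zero_free_zero hF hKm hKM hK0 fun ε hε => ?_
    obtain ⟨X₀, hX₀⟩ := h ε hε
    refine ⟨max X₀ 2, ?_⟩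
    filter_upwards [hX₀] with X h1 h2
    have h3 : 1 < X := by
      have := (le_max_right X₀ 2).trans h2
      linarith
    rw [hw X h3]
    exact h1 ((le_max_left _ _).trans h2)
  have hgrow : ∀ (B C : ℝ), (∀ᶠ X : ℝ in atTop, |mean a b k X| ≤ C * Real.log (Real.log X) + B) →
      ∀ ε : ℝ, 0 < ε → AlmostAllLarge fun X : ℝ => |mean a b k X| ≤ X ^ ε := by
    intro B C h ε hε
    refine AlmostAllLarge.of_eventually ?_
    filter_upwards [h, loglog_le (C := C) (D := B) hε] with X h1 h2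
    exact h1.trans h2
  have hbdd : ∀ ρ L : ℝ, Tendsto (fun X : ℝ => mean a b k X - κ * ρ * Real.log (Real.log X)) atTop
      (𝓝 L) → ∃ B : ℝ, ∀ᶠ X : ℝ in atTop, |mean a b k X - κ * ρ * Real.log (Real.log X)| ≤ B := by
    intro ρ L h
    refine ⟨|L| + 1, ?_⟩
    filter_upwards [h.abs.eventually_lt_const (show |L| < |L| + 1 by linarith)] with X hX
    exact hX.le
  have hsmall : ∀ ρ B : ℝ, (∀ᶠ X : ℝ in atTop,
      |mean a b k X - κ * ρ * Real.log (Real.log X)| ≤ B) →
      (∀ᶠ X : ℝ in atTop, |mean a b k X| ≤ |κ * ρ| * Real.log (Real.log X) + B) := by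
    intro ρ B h
    filter_upwards [h, loglog_tendsto.eventually_ge_atTop 0] with X h1 h2
    have h3 := abs_add_le (mean a b k X - κ * ρ * Real.log (Real.log X))
      (κ * ρ * Real.log (Real.log X))
    rw [sub_add_cancel, abs_mul (κ * ρ), abs_of_nonneg h2] at h3
    linarith
  refine ⟨hsum, ⟨fun hz => ?_, hrh⟩, law, fun hκ0 => ?_, fun hκ0 => ?_, fun hκ0 hℓ0 => ?_⟩
  · obtain ⟨B, hB⟩ := hbdd m₀ _ (law m₀ hz hm₀).2
    exact hgrow B _ (hsmall m₀ B hB)
  · have htfae : ∀ ρ : ℝ, List.TFAE [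
        NoZeros F ∧ ∃ m : ℕ, ρ = m ∧ analyticOrderAt F 1 = m,
        ∃ L : ℝ, Tendsto (fun X : ℝ => mean a b k X - κ * ρ * Real.log (Real.log X)) atTop (𝓝 L),
        ∃ B : ℝ, ∀ᶠ X : ℝ in atTop, |mean a b k X - κ * ρ * Real.log (Real.log X)| ≤ B,
        ∀ ε : ℝ, 0 < ε → AlmostAllLarge fun X : ℝ =>
          |mean a b k X - κ * ρ * Real.log (Real.log X)| ≤ ε * Real.log (Real.log X)] := by
      intro ρ
      tfae_have 1 → 2 := by
        rintro ⟨hz, m, rfl, hm⟩
        exact ⟨_, (law m hz hm).2⟩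
      tfae_have 2 → 3 := by
        rintro ⟨L, hL⟩
        exact hbdd ρ L hL
      tfae_have 3 → 4 := by
        rintro ⟨B, hB⟩ ε hε
        refine AlmostAllLarge.of_eventually ?_
        filter_upwards [hB, loglog_tendsto.eventually_ge_atTop (B / ε)] with X h1 h2
        rw [div_le_iff₀ hε] at h2
        linarith
      tfae_have 4 → 1 := by
        intro h
        have h1 := Pool.Agent.R429.DM.wtd_order hF hKm hKM hKlim hK0 (ρ := κ * ρ) (fun ε hε => by
          obtain ⟨X₀, hX₀⟩ := h ε hε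
          refine ⟨max X₀ 2, ?_⟩
          filter_upwards [hX₀] with X h1 h2
          have h3 : 1 < X := by
            have := (le_max_right X₀ 2).trans h2
            linarith
          rw [hw X h3]
          exact h1 ((le_max_left _ _).trans h2))
        obtain ⟨hz, m, hm, hρ⟩ := h1
        exact ⟨hz, m, mul_left_cancel₀ hκ0 hρ, hm⟩
      tfae_finish
    refine ⟨htfae, ?_⟩
    have h01 : (NoZeros F ∧ ∃ m : ℕ, (rank a b : ℝ) = m ∧ analyticOrderAt F 1 = m) ↔ ∃ L : ℝ,
        Tendsto (fun X : ℝ => mean a b k X - κ * rank a b * Real.log (Real.log X)) atTop (𝓝 L) :=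
      (htfae (rank a b)).out 0 1
    rw [← h01]
    constructor
    · rintro ⟨hz, h⟩
      exact ⟨hz, rank a b, rfl, h⟩
    · rintro ⟨hz, m, h1, h2⟩
      have h3 : rank a b = m := by exact_mod_cast h1
      exact ⟨hz, by rw [h2, h3]⟩
  · tfae_have 1 → 2 := by
      intro hz
      have h1 := (law m₀ hz hm₀).2
      simp only [hκ0, zero_mul, sub_zero, zero_add] at h1
      exact ⟨_, h1⟩
    tfae_have 2 → 3 := by
      rintro ⟨L, hL⟩
      obtain ⟨B, hB⟩ := hbdd 0 L (by simpa [hκ0] using hL)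
      exact ⟨B, by simpa [hκ0] using hB⟩
    tfae_have 3 → 1 := by
      rintro ⟨B, hB⟩
      refine hrh (hgrow B 0 ?_)
      filter_upwards [hB] with X hX
      linarith
    tfae_finish
  · have key : ∀ ρ : ℝ, (NoZeros F ∧ ∃ m : ℕ, ρ = m ∧ analyticOrderAt F 1 = m) ↔
        Tendsto (mean a b k) atTop (𝓝 (ρ * ℓ)) := by
      intro ρ
      constructor
      · rintro ⟨hz, m, rfl, hm⟩
        have h1 := (law m hz hm).2
        simpa only [hκ0, zero_mul, sub_zero, zero_add] using h1
      · intro h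
        obtain ⟨B, hB⟩ := hbdd 0 (ρ * ℓ) (by simpa [hκ0] using h)
        have hz : NoZeros F := by
          refine hrh (hgrow B 0 ?_)
          filter_upwards [hB] with X hX
          simpa [hκ0] using hX
        have h1 := (law m₀ hz hm₀).2
        simp only [hκ0, zero_mul, sub_zero, zero_add] at h1
        have h2 := tendsto_nhds_unique h h1
        exact ⟨hz, m₀, mul_right_cancel₀ hℓ0 h2, hm₀⟩
    refine ⟨key, ?_⟩
    rw [← key (rank a b)]
    constructor
    · rintro ⟨hz, h⟩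
      exact ⟨hz, rank a b, rfl, h⟩
    · rintro ⟨hz, m, h1, h2⟩
      have h3 : rank a b = m := by exact_mod_cast h1
      exact ⟨hz, by rw [h2, h3]⟩

end Pool.Agent.Results.MP_696deb_nt.DensityMeans
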