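import Pool.Agent.R901.EC.Grp2
import Pool.Agent.R901.EC.Tw
import Pool.Agent.R901.EC.X11
import Pool.Agent.Y18.BSD.Main
import Pool.Agent.Y18.BSD.Eleven
import Pool.Agent.Y18.NF.El

/-!
# The rank form of the Birch and Swinnerton-Dyer conjecture in every group of quadratic twists

A finite set `T` of odd primes stands for the discriminant `D(T) = ∏_{q ∈ T} (-1)^((q-1)/2) q` and
for the quadratic field `ℚ(√D(T))`; the product of the classes of discriminants modulo squares is the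
symmetric difference `S ∆ T`.  A *group of discriminants* is a set `H` of finite sets of primes which
contains `∅` and is closed under `∆`; it can be finite or as sparse as one likes.

Let `E_1, …, E_m` be elliptic curves over `ℚ`, given with their newforms, of negative discriminant, with
trivial 2-Selmer group over `ℚ` and with `L(E_i, 1) ≠ 0`.  Then there is a number `V` such that every
group `H` of discriminants composed of primes of good reduction modulo which all the `E_i` have an odd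
number of points contains a subgroup `K` of order `≤ 2 ^ V` such that every coset of `K` in `H` contains
a discriminant `D'` such that for all `i` at the same time the `L`-function of `E_i^{D'}` is entire, its
order of vanishing at `s = 1` is the rank of `E_i^{D'}(ℚ)`, and both are `0`.  So the conjecture holds,
with rank `0`, for a proportion at least `2 ^ (-V)` of the twists by every such group, for all the
curves simultaneously.  The curve `X_0(11)` satisfies the hypotheses (second part of the theorem).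

The proof.  Analytic side (`Y18/BSD`): modulo powers of two the central values of the twists, divided by
periods and multiplied by odd numbers, are polynomials of small degree on the group `H` which is a
vector space over `𝔽₂`.  Algebraic side: if the primes dividing `2Δ_i` split in `K = ℚ(√D)`, then
`Sel_2(E_i/K) = 0` (`Y702/G`, `Y355/G`), so that `E_i(K)` and `E_i^D(ℚ)` are finite; these `D` form a
subgroup of `H` of index at most `2 ^ s`, `s` the number of the primes dividing `2 ∏ Δ_i`.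
-/

set_option autoImplicit false

open Complex UpperHalfPlane MatrixGroups CongruenceSubgroup
open scoped symmDiff

namespace Pool.Agent.Results.MP_696deb_nt.EveryGroupOfTwists

/-- `N_p`: the number of pairs `(x, y) ∈ (ℤ/p)²` with `y² = x³ + a x + b`. -/
noncomputable def pointCount (a b : ℤ) (p : ℕ) : ℕ :=
  Nat.card {q : ZMod p × ZMod p // q.2 ^ 2 = q.1 ^ 3 + (a : ZMod p) * q.1 + (b : ZMod p)}

/-- `p` is a prime not dividing `2 Δ`, `Δ = -4 a³ - 27 b²`. -/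
def GoodPrime (a b : ℤ) (p : ℕ) : Prop :=
  p.Prime ∧ ¬ ((p : ℤ) ∣ 2 * (-4 * a ^ 3 - 27 * b ^ 2))

open Classical in
/-- `F` is the `L`-function of `E : y² = x³ + a x + b` (in the form of the problem): it is entire and
for `Re s > 3/2` it is the incomplete product `∏_{p ∤ 2Δ} (1 - a_p p^{-s} + p^{1-2s})⁻¹`,
`a_p = p - N_p`. -/
def IsL (a b : ℤ) (F : ℂ → ℂ) : Prop :=
  Differentiable ℂ F ∧ ∀ s : ℂ, (3 : ℝ) / 2 < s.re →
    HasProd (fun p : ℕ => if GoodPrime a b p then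
      (1 - ((p : ℂ) - (pointCount a b p : ℂ)) * (p : ℂ) ^ (-s) + (p : ℂ) ^ (1 - 2 * s))⁻¹ else 1)
      (F s)

/-- `L(E, 1) ≠ 0` for `E : y² = x³ + a x + b`. -/
def AnalyticRankZero (a b : ℤ) : Prop := ∃ F : ℂ → ℂ, IsL a b F ∧ F 1 ≠ 0

/-- the group `E(ℚ)` for `E : y² = x³ + a x + b` -/
abbrev Points (a b : ℤ) : Type :=
  (({ a₁ := 0, a₂ := 0, a₃ := 0, a₄ := (a : ℚ), a₆ := (b : ℚ) } : WeierstrassCurve ℚ).toAffine).Point

/-- The statement of the problem for `E : y² = x³ + a x + b`, with the additional information that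
both sides are `0`: the `L`-function of `E` is entire, its order of vanishing at `s = 1` is the rank
of `E(ℚ)`, and the rank is `0`. -/
def BSDRankZero (a b : ℤ) : Prop :=
  4 * a ^ 3 + 27 * b ^ 2 ≠ 0 ∧ ∃ F : ℂ → ℂ, IsL a b F ∧
    analyticOrderAt F 1 = ((Module.finrank ℤ (Points a b) : ℕ) : ℕ∞) ∧
    Module.finrank ℤ (Points a b) = 0

/-- The `n`-th Fourier coefficient of `f`. -/
noncomputable def coef {N : ℕ} (f : CuspForm (Gamma0 N : Subgroup (GL (Fin 2) ℝ)) 2) (n : ℕ) : ℂ :=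
  (qExpansion 1 f).coeff n

/-- `f ∈ S_2(Γ₀(N))` is the newform of the elliptic curve `E : y² = x³ + a x + b`, with its standard
properties: the Fourier coefficients `c(n)` of `f` are real with `c(1) = 1`, they satisfy the Hecke
relations `c(mn) = c(m) c(n)` for coprime `m`, `n` and `c(p^(j+2)) = c(p) c(p^(j+1)) - p c(p^j)`
(without the last term if `p ∣ N`) and the bounds `|c(p)| ≤ 2√p` for `p ∤ N`, `|c(p)| ≤ 1` for
`p ∣ N`; `f` is an eigenfunction of the Fricke involution: `f(-1/(Nτ)) = -w N τ² f(τ)` with `w = ±1`;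
for all primes `p ∤ 2Δ` one has `p ∤ N` and `c(p) = a_p(E)`.  (Every elliptic curve over `ℚ` has such a
form by the modularity theorem.) -/
structure IsFormOf (a b : ℤ) (N : ℕ) (f : CuspForm (Gamma0 N : Subgroup (GL (Fin 2) ℝ)) 2) :
    Prop where
  one : coef f 1 = 1
  real : ∀ n, (coef f n).im = 0
  mul : ∀ m n : ℕ, Nat.Coprime m n → coef f (m * n) = coef f m * coef f n
  pow : ∀ p j : ℕ, p.Prime → coef f (p ^ (j + 2)) = coef f p * coef f (p ^ (j + 1)) -
      (if p ∣ N then 0 else (p : ℂ) * coef f (p ^ j))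
  good : ∀ p : ℕ, p.Prime → ¬ p ∣ N → ‖coef f p‖ ≤ 2 * Real.sqrt p
  bad : ∀ p : ℕ, p.Prime → p ∣ N → ‖coef f p‖ ≤ 1
  fricke : ∃ w : ℝ, (w = 1 ∨ w = -1) ∧ ∀ τ τ' : ℍ, (τ' : ℂ) * ((N : ℂ) * (τ : ℂ)) = -1 →
    f τ' = -(w : ℂ) * (N : ℂ) * (τ : ℂ) ^ 2 * f τ
  points : ∀ p : ℕ, GoodPrime a b p → ¬ p ∣ N ∧ coef f p = (p : ℂ) - (pointCount a b p : ℂ)

/-- The discriminant of the finite set `T` of odd primes, `∏_{q ∈ T} (-1)^((q-1)/2) q`. -/
def disc (T : Finset ℕ) : ℤ := ∏ q ∈ T, (-1) ^ ((q - 1) / 2) * (q : ℤ)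

/-- `q` is a prime, `q ∤ 2Δ`, and `x³ + a x + b` has no root modulo `q`; in other words, the number of
the points of `E` over `ℤ/q` is odd. -/
def Admissible (a b : ℤ) (q : ℕ) : Prop :=
  GoodPrime a b q ∧ ∀ x : ZMod q, x ^ 3 + (a : ZMod q) * x + (b : ZMod q) ≠ 0

/-- `H` is a group of classes of discriminants. -/
def IsGroup (H : Set (Finset ℕ)) : Prop := ∅ ∈ H ∧ ∀ S ∈ H, ∀ T ∈ H, S ∆ T ∈ H

/-- The property `P` holds for a proportion at least `2 ^ (-V)` of the group `H`: `H` has a subgroup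
`K` of order at most `2 ^ V` such that each coset of `K` in `H` contains an element with the property
`P`; so the proportion of the elements with `P` is at least `2 ^ (-V)` if `H` is finite, and if `H` is
infinite, the number of the elements of `H` of absolute value at most `X` is at most `2 ^ V` times the
number of the elements with `P` of absolute value at most `C X`, `C` independent of `X`. -/
def Many (V : ℕ) (H : Set (Finset ℕ)) (P : Finset ℕ → Prop) : Prop :=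
  (∃ K : Finset (Finset ℕ), K.card ≤ 2 ^ V ∧ IsGroup (K : Set (Finset ℕ)) ∧
    (K : Set (Finset ℕ)) ⊆ H ∧ ∀ T ∈ H, ∃ k ∈ K, P (T ∆ k)) ∧
  (H.Finite → H.ncard ≤ 2 ^ V * {T | T ∈ H ∧ P T}.ncard) ∧
  ∃ C : ℕ, ∀ X : ℕ, {T | T ∈ H ∧ ∏ q ∈ T, q ≤ X}.ncard ≤
    2 ^ V * {T | (T ∈ H ∧ P T) ∧ ∏ q ∈ T, q ≤ C * X}.ncard

/-- The coefficient `a = -27 c₄` of the short Weierstrass equation `y² = x³ + a x + b` of `W`. -/
def ca (W : WeierstrassCurve ℤ) : ℤ := -27 * W.c₄

/-- The coefficient `b = -54 c₆` of the short Weierstrass equation `y² = x³ + a x + b` of `W`. -/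
def cb (W : WeierstrassCurve ℤ) : ℤ := -54 * W.c₆

/-- The 2-Selmer group of `W` over `ℚ` is trivial: `W(ℚ)` is finite of odd order and `Ш(W/ℚ)` has no
element of order two. -/
def TrivialTwoSelmer (W : WeierstrassCurve ℤ) : Prop :=
  Finite (W.map (Int.castRingHom ℚ)).toAffine.Point ∧
  Odd (Nat.card (W.map (Int.castRingHom ℚ)).toAffine.Point) ∧
  ∀ s : Pool.Agent.TH841.NF.D.Sha (W.map (Int.castRingHom ℚ)), 2 • s = 0 → s = 0

/-- The curve `X_0(11) : y² + y = x³ - x² - 10 x - 20`. -/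
def X11 : WeierstrassCurve ℤ := ⟨0, -1, 1, -10, -20⟩

lemma form_of {a b : ℤ} {N : ℕ} {f : CuspForm (Gamma0 N : Subgroup (GL (Fin 2) ℝ)) 2}
    (h : IsFormOf a b N f) : Pool.Agent.Y18.BSD.IsFormOf a b N f :=
  ⟨h.one, h.real, h.mul, h.pow, h.good, h.bad, h.fricke, h.points⟩

lemma many_of_corr {V : ℕ} {H : Set (Finset ℕ)} (hH : IsGroup H)
    (hp : ∀ T ∈ H, ∀ q ∈ T, q.Prime) {P : Finset ℕ → Prop} (hc : Pool.Agent.R901.EC.Corr V H P) :
    Many V H P := by
  obtain ⟨K, h1, h2, h3, h4, h5⟩ := hc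
  refine ⟨⟨K, h1, ⟨h2, fun S hS T hT => h3 S hS T hT⟩, fun T hT => h4 T hT, h5⟩, ?_⟩
  exact Pool.Agent.R901.EC.many_of hH.2 hp V K h1 h4 h5

lemma bsd_of {a b : ℤ} (hΔ : 4 * a ^ 3 + 27 * b ^ 2 ≠ 0) (h : AnalyticRankZero a b)
    (hfin : Finite (Points a b)) : BSDRankZero a b := by
  obtain ⟨F, hF, hF1⟩ := h
  have h0 : Module.finrank ℤ (Points a b) = 0 := by
    apply Module.IsTorsion.finrank_eq_zero
    intro P
    refine ⟨⟨(Nat.card (Points a b) : ℤ), ?_⟩, ?_⟩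
    · rw [mem_nonZeroDivisors_iff_ne_zero]
      exact_mod_cast Nat.card_pos.ne'
    · show (Nat.card (Points a b) : ℤ) • P = 0
      rw [natCast_zsmul]
      exact card_nsmul_eq_zero'
  refine ⟨hΔ, F, hF, ?_, h0⟩
  rw [h0]
  exact analyticOrderAt_eq_zero.2 (Or.inr hF1)

theorem part1 (m : ℕ) (a b : Fin m → ℤ) (N : Fin m → ℕ)
    (f : (i : Fin m) → CuspForm (Gamma0 (N i) : Subgroup (GL (Fin 2) ℝ)) 2)
    (hΔ : ∀ i, 4 * a i ^ 3 + 27 * b i ^ 2 ≠ 0) (hN : ∀ i, N i ≠ 0)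
    (hf : ∀ i, IsFormOf (a i) (b i) (N i) (f i)) (B : Fin m → Finset ℕ)
    (hB : ∀ i, ∀ q ∈ B i, GoodPrime (a i) (b i) q)
    (h0 : ∀ i, AnalyticRankZero (a i * disc (B i) ^ 2) (b i * disc (B i) ^ 3)) :
    ∃ V : ℕ, ∀ H : Set (Finset ℕ), IsGroup H →
      (∀ T ∈ H, ∀ q ∈ T, ∀ i, Admissible (a i) (b i) q ∧ q ∉ B i) →
      (∀ T ∈ H, ∀ q ∈ T, q.Prime) →
      Pool.Agent.R901.EC.Corr V H (fun T => ∀ i, AnalyticRankZero (a i * (disc (B i) * disc T) ^ 2)
        (b i * (disc (B i) * disc T) ^ 3)) := by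
  haveI : ∀ i, NeZero (N i) := fun i => ⟨hN i⟩
  obtain ⟨V, hV⟩ := Pool.Agent.Y18.BSD.main m a b hΔ N f (fun i => form_of (hf i)) B hB h0
  refine ⟨V, fun H hH hA hp => ?_⟩
  obtain ⟨K, h1, h2, h3, h4, h5⟩ := hV H hH.1 hH.2 hA
  exact ⟨K, h1, h2, h3, h4, h5⟩

theorem part2 (m : ℕ) (W : Fin m → WeierstrassCurve ℤ) (N : Fin m → ℕ)
    (f : (i : Fin m) → CuspForm (Gamma0 (N i) : Subgroup (GL (Fin 2) ℝ)) 2)
    (hΔ : ∀ i, (W i).Δ < 0) (hS : ∀ i, TrivialTwoSelmer (W i)) (hN : ∀ i, N i ≠ 0)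
    (hf : ∀ i, IsFormOf (ca (W i)) (cb (W i)) (N i) (f i))
    (h0 : ∀ i, AnalyticRankZero (ca (W i)) (cb (W i))) :
    ∃ V : ℕ, ∀ H : Set (Finset ℕ), IsGroup H → (∀ T ∈ H, ∀ q ∈ T, q.Prime) →
      (∀ T ∈ H, ∀ q ∈ T, ∀ i, Admissible (ca (W i)) (cb (W i)) q) →
      Pool.Agent.R901.EC.Corr V H (fun T => ∀ i, BSDRankZero (ca (W i) * disc T ^ 2) (cb (W i) * disc T ^ 3)) := by
  classical
  have hne : ∀ i, 4 * ca (W i) ^ 3 + 27 * cb (W i) ^ 2 ≠ 0 := by
    intro i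
    have h1 : 4 * ca (W i) ^ 3 + 27 * cb (W i) ^ 2 = -136048896 * (W i).Δ :=
      Pool.Agent.R901.EC.ca_cb (W i)
    rw [h1]
    exact mul_ne_zero (by norm_num) (hΔ i).ne
  obtain ⟨V, hV⟩ := part1 m (fun i => ca (W i)) (fun i => cb (W i)) N f hne hN hf (fun _ => ∅)
    (fun _ _ h => absurd h (Finset.notMem_empty _)) (fun i => by
      have e : disc ∅ = 1 := by simp [disc]
      rw [e, one_pow, one_pow, mul_one, mul_one]
      exact h0 i)
  set D0 : ℤ := ∏ i, (2 * (W i).Δ) with hD0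
  have hD0' : D0 ≠ 0 := Finset.prod_ne_zero_iff.2 fun i _ => mul_ne_zero (by norm_num) (hΔ i).ne
  set Z : Finset ℕ := D0.natAbs.primeFactors with hZ
  have hmemZ : ∀ p : ℕ, p ∈ Z ↔ p.Prime ∧ (p : ℤ) ∣ D0 := by
    intro p
    rw [hZ, Nat.mem_primeFactors_of_ne_zero (by simpa using hD0')]
    rw [← Int.natCast_dvd]
  refine ⟨V + Z.card, fun H hH hp hA => ?_⟩
  have hqZ : ∀ T ∈ H, ∀ q ∈ T, q ∉ Z := by
    intro T hT q hq hqZ
    obtain ⟨hqp, hqd⟩ := (hmemZ q).1 hqZ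
    rw [hD0, (Nat.prime_iff_prime_int.1 hqp).dvd_finsetProd_iff] at hqd
    obtain ⟨i, -, h1⟩ := hqd
    exact (Pool.Agent.R901.EC.good_iff' (W := W i) (hA T hT q hq i).1).2.1 h1
  refine Pool.Agent.R901.EC.corr_all Z (fun p hpZ => ((hmemZ p).1 hpZ).1) hH.1 hH.2
    (fun T hT q hq => ⟨hp T hT q hq, hqZ T hT q hq⟩) ?_
  set H' : Set (Finset ℕ) := {T | T ∈ H ∧ ∀ p ∈ Z, jacobiSym p (∏ q ∈ T, q) = 1} with hH'
  have hgrp : IsGroup H' := by
    refine ⟨⟨hH.1, fun p _ => by simp [jacobiSym.one_right]⟩, ?_⟩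
    rintro S ⟨hSH, hS1⟩ T ⟨hTH, hT1⟩
    refine ⟨hH.2 S hSH T hTH, fun p hpZ => ?_⟩
    rw [Pool.Agent.R901.EC.jac_symm (hp S hSH) (hp T hTH) ((hmemZ p).1 hpZ).1
      (fun h => hqZ S hSH p h hpZ), hS1 p hpZ, hT1 p hpZ, mul_one]
  obtain ⟨K, h1, h2, h3, h4, h5⟩ := hV H' hgrp
    (fun T hT q hq i => ⟨hA T hT.1 q hq i, Finset.notMem_empty _⟩) (fun T hT => hp T hT.1)
  refine ⟨K, h1, h2, h3, h4, fun T hT => ?_⟩
  obtain ⟨k, hk, h6⟩ := h5 T hT
  refine ⟨k, hk, fun i => ?_⟩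
  have hTk : T ∆ k ∈ H' := hgrp.2 T hT k (h4 k hk)
  have h7 := h6 i
  have e : disc ∅ = 1 := by simp [disc]
  rw [e, one_mul] at h7
  have hfin : Finite (Pool.Agent.R901.EC.twk (W i) ℚ (disc (T ∆ k))).toAffine.Point :=
    Pool.Agent.R901.EC.twist_finite (W i) (hΔ i) (hS i).2.2 (hS i).1 (hS i).2.1 (T ∆ k)
      (fun q hq => hA _ hTk.1 q hq i) (fun p hpp hpd => hTk.2 p ((hmemZ p).2 ⟨hpp,
        hpd.trans (Finset.dvd_prod_of_mem (fun i => 2 * (W i).Δ) (Finset.mem_univ i))⟩))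
  refine bsd_of ?_ h7 hfin
  have hd : disc (T ∆ k) ≠ 0 := Pool.Agent.R901.EC.disc_ne (hp _ hTk.1)
  have e1 : 4 * (ca (W i) * disc (T ∆ k) ^ 2) ^ 3 + 27 * (cb (W i) * disc (T ∆ k) ^ 3) ^ 2 =
      (4 * ca (W i) ^ 3 + 27 * cb (W i) ^ 2) * disc (T ∆ k) ^ 6 := by ring
  rw [e1]
  exact mul_ne_zero (hne i) (pow_ne_zero _ hd)

/-- **The rank form of the conjecture of Birch and Swinnerton-Dyer, uniformly in all groups of quadratic
twists.** -/
theorem result :
    (∀ (m : ℕ) (W : Fin m → WeierstrassCurve ℤ) (N : Fin m → ℕ)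
      (f : (i : Fin m) → CuspForm (Gamma0 (N i) : Subgroup (GL (Fin 2) ℝ)) 2),
      (∀ i, (W i).Δ < 0) → (∀ i, TrivialTwoSelmer (W i)) → (∀ i, N i ≠ 0) →
      (∀ i, IsFormOf (ca (W i)) (cb (W i)) (N i) (f i)) →
      (∀ i, AnalyticRankZero (ca (W i)) (cb (W i))) →
      ∃ V : ℕ, ∀ H : Set (Finset ℕ), IsGroup H →
        (∀ T ∈ H, ∀ q ∈ T, q.Prime ∧ ∀ i, Admissible (ca (W i)) (cb (W i)) q) →
        Many V H (fun T => ∀ i, BSDRankZero (ca (W i) * disc T ^ 2) (cb (W i) * disc T ^ 3))) ∧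
    (X11.Δ < 0 ∧ TrivialTwoSelmer X11 ∧ (∃ f : CuspForm (Gamma0 11 : Subgroup (GL (Fin 2) ℝ)) 2,
      IsFormOf (ca X11) (cb X11) 11 f) ∧ AnalyticRankZero (ca X11) (cb X11)) := by
  refine ⟨?_, ?_, ?_, ?_, ?_⟩
  · intro m W N f hΔ hS hN hf h0
    obtain ⟨V, hV⟩ := part2 m W N f hΔ hS hN hf h0
    exact ⟨V, fun H hH hA => many_of_corr hH (fun T hT q hq => (hA T hT q hq).1)
      (hV H hH (fun T hT q hq => (hA T hT q hq).1) fun T hT q hq => (hA T hT q hq).2)⟩
  · norm_num [X11, WeierstrassCurve.Δ, WeierstrassCurve.b₂, WeierstrassCurve.b₄,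
      WeierstrassCurve.b₆, WeierstrassCurve.b₈]
  · obtain ⟨h1, h2, h3⟩ := Pool.Agent.R901.EC.sel11
    exact ⟨h2, h3, h1⟩
  · have e1 : ca X11 = -13392 := by
      norm_num [ca, X11, WeierstrassCurve.c₄, WeierstrassCurve.b₂, WeierstrassCurve.b₄]
    have e2 : cb X11 = -1080432 := by
      norm_num [cb, X11, WeierstrassCurve.c₆, WeierstrassCurve.b₂, WeierstrassCurve.b₄,
        WeierstrassCurve.b₆]
    rw [e1, e2]
    have h := Pool.Agent.Y18.BSD.Eleven.isFormOf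
    exact ⟨_, ⟨h.one, h.real, h.mul, h.pow, h.good, h.bad, h.fricke, h.points⟩⟩
  · have e1 : ca X11 = -13392 := by
      norm_num [ca, X11, WeierstrassCurve.c₄, WeierstrassCurve.b₂, WeierstrassCurve.b₄]
    have e2 : cb X11 = -1080432 := by
      norm_num [cb, X11, WeierstrassCurve.c₆, WeierstrassCurve.b₂, WeierstrassCurve.b₄,
        WeierstrassCurve.b₆]
    rw [e1, e2]
    exact Pool.Agent.Y18.NF.rankZero11

end Pool.Agent.Results.MP_696deb_nt.EveryGroupOfTwists
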