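import Pool.Agent.R413.SJ.ShaQ
import Pool.Agent.R413.SQ.Cor
import Pool.Agent.R494.AV2
import Pool.Agent.Results.MP_696deb_nt.ExactProportion

/-!
Two elliptic curves and all their twists at the same time: the rank form of the Birch and
Swinnerton-Dyer conjecture for the twists of `X_0(14)` (no complex multiplication) and of `X_0(49)`
(complex multiplication), and all the exact joint proportions.

`D` runs over the squarefree numbers `D ≥ 1`, `D ≡ 1 mod 8`, whose prime factors are `1 mod 8` and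
split in `ℚ(√-7)` or `5 mod 8` and inert in `ℚ(√-7)`; for two numbers `M` and `D` of the class the
squarefree part `tw M D` of `M D` is again in the class, so that the class is a group. For each of the
two curves, the property of having finitely many rational points and no element of order two in `Ш`
implies the rank form in rank `0`. Here the joint proportions are computed for any finite set `T` of
pairs (curve, `M`): for every subset `V` of `T` the proportion of the `D` for which the twist by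
`tw M D` of the curve has the property for all the pairs in `V` and for no other pair in `T` is
`c ^ |V| (1 - c) ^ |T \ V|`, with `c = ∏_{i ≥ 0} (1 - 2^{-(2i+1)}) = 0.4194...`: the events are
asymptotically independent. For `T = {(X_0(14), 1), (X_0(49), 1)}` the proportion of the `D` for which
both, only the first, only the second, none of the curves has the property is
`c²`, `c (1 - c)`, `c (1 - c)`, `(1 - c)²`.

The matrices over `𝔽₂` which decide the two events for the same `D` are equal outside of the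
diagonal, where they differ by the quadratic symbols of `(-7 + √-7) / 2` modulo the split primes. The
joint law for two curves and one twist is in `Pool/Agent/R413/SJ`; the law for any finite number of
twists is the one of helper494 (`Pool/Agent/R494/SQ8`, `SQ9`), after project JQ (helpers 697, 362, 405,
514 and 687) and project CQ (helpers 710, 356, 839, 948, 219, 657, 302, 697, 391, 488, 475, 362, 949,
405, 514 and 703); the single criteria are from `ExactProportion` and from
`MP_4a9ea6_nt/TwoPartTwistsX49` (helper428).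
-/

set_option autoImplicit false

open Finset

namespace Pool.Agent.Results.MP_696deb_nt.JointProportionX14X49

/-- coefficient of the twist `y² = x³ + A14 D x + B14 D` by `D` of `X_0(14)` -/
def A14 (D : ℤ) : ℤ := 5805 * D ^ 2

/-- coefficient of the twist `y² = x³ + A14 D x + B14 D` by `D` of `X_0(14)` -/
def B14 (D : ℤ) : ℤ := -285714 * D ^ 3

/-- coefficient of the twist `y² = x³ + A49 D x + B49 D` by `D` of `X_0(49)` -/
def A49 (D : ℤ) : ℤ := -35 * D ^ 2

/-- coefficient of the twist `y² = x³ + A49 D x + B49 D` by `D` of `X_0(49)` -/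
def B49 (D : ℤ) : ℤ := -98 * D ^ 3

/-- the curve `y² = x³ + a x + b` over `ℚ` -/
def E (a b : ℤ) : WeierstrassCurve ℚ :=
  { a₁ := 0, a₂ := 0, a₃ := 0, a₄ := (a : ℚ), a₆ := (b : ℚ) }

/-- `y² = x³ + a x + b` has finitely many rational points and its Tate-Shafarevich group over `ℚ`
has no element of order two -/
def RankZeroShaTwo (a b : ℤ) : Prop :=
  Finite (E a b).toAffine.Point ∧ ∀ x : Pool.Agent.TH841.SH.D.Sha (E a b), 2 • x = 0 → x = 0

/-- the conclusion of the frozen statement for `y² = x³ + a x + b`, together with the fact that the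
order of vanishing and the rank are both `0` -/
def BSDRankZero (a b : ℤ) : Prop :=
  4 * a ^ 3 + 27 * b ^ 2 ≠ 0 ∧
    ∃ F : ℂ → ℂ, Differentiable ℂ F ∧
      (∀ s : ℂ, (3 : ℝ) / 2 < s.re →
        HasProd
          (fun p : ℕ => open Classical in
            if p.Prime ∧ ¬ ((p : ℤ) ∣ 2 * (-4 * a ^ 3 - 27 * b ^ 2)) then
              (1 - ((p : ℂ) - (Nat.card {q : ZMod p × ZMod p //
                  q.2 ^ 2 = q.1 ^ 3 + (a : ZMod p) * q.1 + (b : ZMod p)} : ℂ))
                  * (p : ℂ) ^ (-s) + (p : ℂ) ^ (1 - 2 * s))⁻¹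
            else 1)
          (F s)) ∧
      analyticOrderAt F 1 =
        ((Module.finrank ℤ
          (WeierstrassCurve.Affine.Point
            (WeierstrassCurve.toAffine
              ({ a₁ := 0, a₂ := 0, a₃ := 0, a₄ := (a : ℚ), a₆ := (b : ℚ) } :
                WeierstrassCurve ℚ))) : ℕ) : ℕ∞) ∧
      Module.finrank ℤ
        (WeierstrassCurve.Affine.Point
          (WeierstrassCurve.toAffine
            ({ a₁ := 0, a₂ := 0, a₃ := 0, a₄ := (a : ℚ), a₆ := (b : ℚ) } :
              WeierstrassCurve ℚ))) = 0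

/-- the class: `D` is squarefree and `1` modulo `8`, and its prime factors are `1` modulo `8` and
split in `ℚ(√-7)`, or `5` modulo `8` and inert in `ℚ(√-7)` -/
def Family (D : ℕ) : Prop := Squarefree D ∧ D % 8 = 1 ∧ ∀ p ∈ D.primeFactors,
  (p % 8 = 1 ∧ (p % 7 = 1 ∨ p % 7 = 2 ∨ p % 7 = 4)) ∨
    (p % 8 = 5 ∧ (p % 7 = 3 ∨ p % 7 = 5 ∨ p % 7 = 6))

/-- the squarefree part of `M D`, for squarefree `M` and `D` -/
def tw (M D : ℕ) : ℕ := M * D / Nat.gcd M D ^ 2

/-- the coefficient `a` of the twist `y² = x³ + a x + b` by `D` of `X_0(49)` (`c = true`) and of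
`X_0(14)` (`c = false`) -/
def A (c : Bool) (D : ℤ) : ℤ := if c = true then A49 D else A14 D

/-- the coefficient `b` of the twist `y² = x³ + a x + b` by `D` of `X_0(49)` (`c = true`) and of
`X_0(14)` (`c = false`) -/
def B (c : Bool) (D : ℤ) : ℤ := if c = true then B49 D else B14 D

/-- the twist by `D` of `X_0(49)` (`c = true`) or `X_0(14)` (`c = false`) has rank zero and no element of
order two in `Ш` -/
def Good (c : Bool) (D : ℕ) : Prop := RankZeroShaTwo (A c D) (B c D)

open Classical in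
/-- the number of the `D ≤ X` of the class with the property `Q` -/
noncomputable def num (Q : ℕ → Prop) (X : ℕ) : ℕ := ((Icc 1 X).filter fun D => Family D ∧ Q D).card

/-- `Q` has the proportion `θ` in the class -/
def HasProportion (Q : ℕ → Prop) (θ : ℝ) : Prop :=
  Filter.Tendsto (fun X : ℕ => (num Q X : ℝ) / (num (fun _ => True) X : ℝ)) Filter.atTop (nhds θ)

section proof

open Pool.Agent.Y703.CQ (Cl Gd ff c2)
open Pool.Agent.Y698.SG (n4)
open Pool.Agent.Y687.MQ (AdmD)
open Pool.Agent.R494.AV (Fc fa Ix Ps ac8_symm)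
open Pool.Agent.R426.QB (Ac8 Ac Pc ac8_iff prod_symmDiff_nat)
open Pool.Agent.Results.MP_4a9ea6_nt.TwoPartTwistsX49 (Adm)

theorem fam_cl (D : ℕ) : Family D ↔ Squarefree D ∧ Cl {5} {0} D.primeFactors :=
  Pool.Agent.Results.MP_4a9ea6_nt.TwoPartTwistsX49.fam_cl D

theorem fam_adm {D : ℕ} (h : Family D) : Adm D :=
  Pool.Agent.Results.MP_4a9ea6_nt.TwoPartTwistsX49.fam_adm h

/-- the class is contained in that of `X_0(14)` -/
theorem fam_adm14 {D : ℕ} (h : Family D) : AdmD (D : ℤ) := by
  obtain ⟨h1, h2, h3, h4⟩ := (fam_cl D).1 h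
  have h5 : Cl {3, 5} {0} D.primeFactors := by
    refine ⟨fun p hp => ?_, h3, h4⟩
    rcases h2 p hp with h6 | ⟨k1, k2, k3, k4⟩
    · exact Or.inl h6
    · refine Or.inr ⟨k1, k2, ?_, k4⟩
      rw [Finset.mem_singleton] at k3
      rw [k3]
      decide
  obtain ⟨D', h6, h7⟩ := Pool.Agent.Y703.CQ.cl_adm h1 h5
  have h8 : 0 < D' := by
    rw [Pool.Agent.Y703.CQ.sign_iff h6, h7]
    exact Finset.mem_singleton.1 h4
  have h9 : D' = (D : ℤ) := by omega
  rw [← h9]
  exact h6

/-- the criterion for `X_0(14)` -/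
theorem g14_iff {D : ℕ} (h : Family D) : Good false D ↔ Gd ff D.primeFactors := by
  show RankZeroShaTwo (A14 D) (B14 D) ↔ _
  have h1 := fam_adm14 h
  have h2 := Pool.Agent.Results.MP_696deb_nt.ExactProportion.rank_iff h1
  rw [Pool.Agent.Y703.CQ.gd_iff, Int.natAbs_natCast] at h2
  exact h2

/-- the criterion for `X_0(49)` -/
theorem g49_iff {D : ℕ} (h : Family D) : Good true D ↔ Gd n4 D.primeFactors := by
  show RankZeroShaTwo (A49 D) (B49 D) ↔ _
  have h1 := fam_adm h
  have h2 := (Pool.Agent.Results.MP_4a9ea6_nt.TwoPartTwistsX49.two_iff h1).symm.trans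
    (Pool.Agent.Results.MP_4a9ea6_nt.TwoPartTwistsX49.fam_two h)
  rw [← h2, ← Pool.Agent.R413.SQ.Cor.crit h1, ← Pool.Agent.R413.SJ.ShaQ.two_iff]
  exact Iff.rfl

theorem bsd14 {D : ℕ} (h : Family D) (hR : Good false D) : BSDRankZero (A14 D) (B14 D) := by
  have h1 := fam_adm14 h
  have h2 := (Pool.Agent.Results.MP_696deb_nt.ExactProportion.rank_iff h1).1 hR
  exact Pool.Agent.Results.MP_696deb_nt.ExactProportion.bsd_of h1.1.ne_zero
    (Pool.Agent.Y687.MQ.WB_D h1 h2)

theorem bsd49 {D : ℕ} (h : Family D) (hR : Good true D) : BSDRankZero (A49 D) (B49 D) := by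
  have h1 := fam_adm h
  have hd : (Pool.Agent.Results.MP_4a9ea6_nt.TwoPartTwistsX49.mat D).det ≠ 0 := by
    rw [← Pool.Agent.R413.SQ.Cor.crit h1, ← Pool.Agent.R413.SJ.ShaQ.two_iff]
    exact hR
  obtain ⟨F, k1, k2, k3, k4⟩ := Pool.Agent.R413.SQ.Cor.rank_bsd h1 hd
  refine ⟨?_, F, k1, k2, ?_, k4⟩
  · have e : 4 * A49 D ^ 3 + 27 * B49 D ^ 2 = 2 ^ 8 * 7 ^ 3 * (D : ℤ) ^ 6 := by
      unfold A49 B49
      ring
    rw [e]
    have hD : (D : ℤ) ≠ 0 := by exact_mod_cast h.1.ne_zero
    exact mul_ne_zero (by norm_num) (pow_ne_zero 6 hD)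
  · unfold A49 B49
    unfold Pool.Agent.R413.SQ.Cor.a Pool.Agent.R413.SQ.Cor.b at k4
    rw [k3, k4]
    rfl

theorem num_eq {Q : ℕ → Prop} {R : Finset ℕ → Prop} (h : ∀ D, Family D → (Q D ↔ R D.primeFactors))
    (X : ℕ) : num Q X = (open Classical in ((Icc 1 X).filter fun D => Squarefree D ∧
      Cl {5} {0} D.primeFactors ∧ R D.primeFactors).card) := by
  classical
  unfold num
  refine congrArg Finset.card (Finset.ext fun D => ?_)
  rw [Finset.mem_filter, Finset.mem_filter]
  refine and_congr_right fun _ => ?_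
  rw [← and_assoc, ← fam_cl]
  exact and_congr_right fun hF => h D hF

theorem num_true (X : ℕ) : num (fun _ => True) X = (open Classical in ((Icc 1 X).filter fun D =>
    Squarefree D ∧ Cl {5} {0} D.primeFactors).card) := by
  classical
  rw [num_eq (R := fun _ => True) (fun _ _ => Iff.rfl)]
  simp only [and_true]

theorem good_iff (c : Bool) {D : ℕ} (h : Family D) : Good c D ↔ Gd (Fc c) D.primeFactors := by
  cases c
  · have e : Fc false = ff := by
      funext p
      unfold Fc
      simp
    rw [e]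
    exact g14_iff h
  · have e : Fc true = n4 := by
      funext p
      unfold Fc
      simp
    rw [e]
    exact g49_iff h

theorem fam_ac {D : ℕ} : Family D ↔ Ac8 D := by
  rw [fam_cl, ac8_iff]

theorem ac_tw {M D : ℕ} (hM : Family M) (hD : Family D) :
    tw M D = ∏ p ∈ symmDiff D.primeFactors M.primeFactors, p ∧
      M * D = tw M D * Nat.gcd M D ^ 2 := by
  have h1 := prod_symmDiff_nat D.primeFactors M.primeFactors
  have h2 : Squarefree (Nat.gcd M D) := hM.1.squarefree_of_dvd (Nat.gcd_dvd_left M D)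
  have h3 : ∏ p ∈ D.primeFactors ∩ M.primeFactors, p = Nat.gcd M D := by
    rw [Finset.inter_comm, ← Nat.primeFactors_gcd hM.1.ne_zero hD.1.ne_zero,
      Nat.prod_primeFactors_of_squarefree h2]
  rw [h3, Nat.prod_primeFactors_of_squarefree hM.1, Nat.prod_primeFactors_of_squarefree hD.1,
    mul_comm D M] at h1
  have h4 : 0 < Nat.gcd M D ^ 2 := by
    have := Nat.pos_of_ne_zero h2.ne_zero
    positivity
  have h5 : tw M D = ∏ p ∈ symmDiff D.primeFactors M.primeFactors, p := by
    unfold tw
    rw [h1, Nat.mul_div_cancel _ h4]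
  exact ⟨h5, by rw [h5]; exact h1⟩

theorem tw_pf {M D : ℕ} (hM : Family M) (hD : Family D) :
    (tw M D).primeFactors = symmDiff D.primeFactors M.primeFactors := by
  rw [(ac_tw hM hD).1]
  refine Nat.primeFactors_prod fun p hp => ?_
  rcases Finset.mem_symmDiff.1 hp with h | h
  · exact Nat.prime_of_mem_primeFactors h.1
  · exact Nat.prime_of_mem_primeFactors h.1

/-- the class is stable -/
theorem fam_tw {M D : ℕ} (hM : Family M) (hD : Family D) : Family (tw M D) := by
  rw [fam_ac, (ac_tw hM hD).1]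
  have h1 := fam_ac.1 hM
  have h2 := fam_ac.1 hD
  refine ac8_symm h2.1.2 h1.1.2 ?_ ?_
  · rw [h2.1.prod]
    exact h2.2
  · rw [h1.1.prod]
    exact h1.2

/-- the index of a pair -/
noncomputable def jx (x : Bool × ℕ) : Ix :=
  open Classical in (x.1, if h : Family x.2 then ⟨x.2.primeFactors, (fam_ac.1 h).1.2⟩ else ⟨∅, by simp⟩)

theorem jx_inj {x y : Bool × ℕ} (hx : Family x.2) (hy : Family y.2) (h : jx x = jx y) : x = y := by
  unfold jx at h
  rw [dif_pos hx, dif_pos hy, Prod.mk.injEq] at h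
  have h2 : x.2.primeFactors = y.2.primeFactors := congrArg Subtype.val h.2
  refine Prod.ext h.1 ?_
  rw [← Nat.prod_primeFactors_of_squarefree hx.1, ← Nat.prod_primeFactors_of_squarefree hy.1, h2]

theorem jx_iff {x : Bool × ℕ} (hx : Family x.2) {D : ℕ} (hD : Family D) :
    Good x.1 (tw x.2 D) ↔ Gd (Fc (jx x).1) (symmDiff D.primeFactors (jx x).2.1) := by
  rw [good_iff x.1 (fam_tw hx hD), tw_pf hx hD]
  unfold jx
  rw [dif_pos hx]

/-- **the joint law** -/
theorem law {T V : Finset (Bool × ℕ)} (hT : ∀ x ∈ T, Family x.2) (hV : V ⊆ T) :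
    HasProportion (fun D => ∀ x ∈ T, (Good x.1 (tw x.2 D) ↔ x ∈ V))
      (c2 ^ V.card * (1 - c2) ^ (T \ V).card) := by
  classical
  set P : Finset Ix := V.image jx with hP
  set Q : Finset Ix := (T \ V).image jx with hQ
  have hVf : ∀ x ∈ V, Family x.2 := fun x hx => hT x (hV hx)
  have hQf : ∀ x ∈ T \ V, Family x.2 := fun x hx => hT x (Finset.mem_sdiff.1 hx).1
  have hd : Disjoint P Q := by
    rw [Finset.disjoint_left]
    intro z hz hz'
    obtain ⟨x, hx, rfl⟩ := Finset.mem_image.1 hz
    obtain ⟨y, hy, he⟩ := Finset.mem_image.1 hz'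
    have h1 := jx_inj (hQf y hy) (hVf x hx) he
    rw [h1] at hy
    exact (Finset.mem_sdiff.1 hy).2 hx
  have cP : P.card = V.card := Finset.card_image_of_injOn fun x hx y hy h =>
    jx_inj (hVf x hx) (hVf y hy) h
  have cQ : Q.card = (T \ V).card := Finset.card_image_of_injOn fun x hx y hy h =>
    jx_inj (hQf x hx) (hQf y hy) h
  have h := Pool.Agent.R494.SQ.lawD {5} {0} Pool.Agent.R428.Q0.ok5 fa P Q hd
  rw [cP, cQ] at h
  refine h.congr fun X => ?_
  rw [num_eq (Q := fun D => ∀ x ∈ T, (Good x.1 (tw x.2 D) ↔ x ∈ V)) (R := fun S =>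
    (∀ i ∈ P, Gd (Fc i.1) (symmDiff S i.2.1)) ∧ ∀ i ∈ Q, ¬ Gd (Fc i.1) (symmDiff S i.2.1))
    (fun D hD => ?_), num_true]
  · congr!
  · constructor
    · intro h2
      constructor
      · intro i hi
        obtain ⟨x, hx, rfl⟩ := Finset.mem_image.1 hi
        exact (jx_iff (hVf x hx) hD).1 ((h2 x (hV hx)).2 hx)
      · intro i hi
        obtain ⟨x, hx, rfl⟩ := Finset.mem_image.1 hi
        obtain ⟨h3, h4⟩ := Finset.mem_sdiff.1 hx
        intro h5
        exact h4 ((h2 x h3).1 ((jx_iff (hT x h3) hD).2 h5))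
    · rintro ⟨h2, h3⟩ x hx
      by_cases hxV : x ∈ V
      · exact ⟨fun _ => hxV, fun _ => (jx_iff (hT x hx) hD).2 (h2 _ (Finset.mem_image_of_mem _ hxV))⟩
      · refine ⟨fun h4 => ?_, fun h4 => absurd h4 hxV⟩
        exact absurd ((jx_iff (hT x hx) hD).1 h4)
          (h3 _ (Finset.mem_image_of_mem _ (Finset.mem_sdiff.2 ⟨hx, hxV⟩)))

end proof

/-- the constant `c = 0.4194...` -/
noncomputable def c : ℝ := ∏' i : ℕ, (1 - (1 / 2 : ℝ) ^ (2 * i + 1))

theorem result :
    (∀ (e : Bool) (D : ℕ), Family D → Good e D → BSDRankZero (A e D) (B e D)) ∧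
    (∀ M D : ℕ, Family M → Family D → Family (tw M D) ∧ M * D = tw M D * Nat.gcd M D ^ 2) ∧
    (∀ T V : Finset (Bool × ℕ), (∀ x ∈ T, Family x.2) → V ⊆ T →
      HasProportion (fun D => ∀ x ∈ T, (Good x.1 (tw x.2 D) ↔ x ∈ V))
        (c ^ V.card * (1 - c) ^ (T.card - V.card))) ∧
    0.4194 < c ∧ c < 0.4195 := by
  have hc : Pool.Agent.Y703.CQ.c2 = c := rfl
  refine ⟨fun e D h hR => ?_, fun M D hM hD => ⟨fam_tw hM hD, (ac_tw hM hD).2⟩,
    fun T V hT hV => ?_, ?_⟩
  · cases e
    · exact bsd14 h hR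
    · exact bsd49 h hR
  · have h := law hT hV
    rw [hc, Finset.card_sdiff_of_subset hV] at h
    exact h
  · have h := Pool.Agent.Y948.CQ.t_C2
    exact ⟨h.2.2.2.1, h.2.2.2.2⟩

end Pool.Agent.Results.MP_696deb_nt.JointProportionX14X49
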