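import Pool.Agent.R494.BS3

/-!
# The rank form over multiquadratic fields generated by primes in bounded intervals

`E_M : y² = x³ + 5805 M² x - 285714 M³` is the twist by `M` of the non-CM curve `E_1 = X_0(14)`.

* Primes in bounded intervals. Let `r` mod `m`, `56 ∣ m`, be a class of primes which split completely in
  `ℚ(i, √2, √-7)`, and `q ∤ m` a prime which is inert in `ℚ(√-7)` and `≡ 3` modulo `8`. For a fixed `M ∈ {1, -q}` and every
  `k` there are infinitely many sets of `k` primes `p_1, …, p_k` of the class, contained in intervals of bounded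
  length, such that all the `2 ^ k` twists of `E_M` by the products of the `p_i` satisfy the rank form of the conjecture of
  Birch and Swinnerton-Dyer with order of vanishing and rank `0`, and such that over `K = ℚ(√p_1, …, √p_k)`, a field of degree
  `2 ^ k`, the group `E_M(K)` is finite and `L(E_M/K, s)` is entire and does not vanish at `s = 1`.
* Consecutive primes. The same holds for infinitely many blocks of `k` consecutive primes of the class, contained in
  intervals of bounded length, with `M = -q` for infinitely many primes `q` depending on the block; and, in a class of primes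
  `≡ 3` modulo `8` inert in `ℚ(√-7)`, for the curve `X_0(14)` itself and the fields `ℚ(√-p_1, …, √-p_k)`.

Proof. By the work of helpers 700, 17, 687 and their teams (`Pool/Agent/Y687/MQ`) the conclusion holds if certain matrices
over `𝔽₂` of quadratic residue symbols are nonsingular. They are identity matrices if the primes are squares modulo each
other and the diagonal entries, which also contain the parity of the number of points modulo `8`, are odd. The theorem
of Maynard and Tao is applied to linear forms whose values have prescribed quadratic symbols with respect to each other;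
for a given colouring of the primes (here by the number of points modulo `8`) the primes can be chosen to be of the same colour
(`Pool/Agent/R494`, library of helper779 and others).
-/

set_option autoImplicit false

open NumberField IsDedekindDomain

namespace Pool.Agent.Results.MP_696deb_nt.MultiquadraticBoundedGaps

/-- coefficients of `E_M : y² = x³ + A M x + B M`, the twist of `X_0(14)` -/
def A (M : ℤ) : ℤ := 5805 * M ^ 2

/-- coefficients of `E_M : y² = x³ + A M x + B M`, the twist of `X_0(14)` -/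
def B (M : ℤ) : ℤ := -285714 * M ^ 3

/-- the conclusion of the frozen statement for `y² = x³ + a x + b`, together with the fact that the
order of vanishing and the rank are both `0` -/
def BSDRankZero (a b : ℤ) : Prop :=
  4 * a ^ 3 + 27 * b ^ 2 ≠ 0 ∧
    ∃ F : ℂ → ℂ, Differentiable ℂ F ∧
      (∀ s : ℂ, (3 : ℝ) / 2 < s.re →
        HasProd
          (fun p : ℕ => open Classical in
            if p.Prime ∧ ¬ ((p : ℤ) ∣ 2 * (-4 * a ^ 3 - 27 * b ^ 2)) then
              (1 - ((p : ℂ) - (Nat.card {q : ZMod p × ZMod p //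
                  q.2 ^ 2 = q.1 ^ 3 + (a : ZMod p) * q.1 + (b : ZMod p)} : ℂ))
                  * (p : ℂ) ^ (-s) + (p : ℂ) ^ (1 - 2 * s))⁻¹
            else 1)
          (F s)) ∧
      analyticOrderAt F 1 =
        ((Module.finrank ℤ
          (WeierstrassCurve.Affine.Point
            (WeierstrassCurve.toAffine
              ({ a₁ := 0, a₂ := 0, a₃ := 0, a₄ := (a : ℚ), a₆ := (b : ℚ) } :
                WeierstrassCurve ℚ))) : ℕ) : ℕ∞) ∧
      Module.finrank ℤ
        (WeierstrassCurve.Affine.Point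
          (WeierstrassCurve.toAffine
            ({ a₁ := 0, a₂ := 0, a₃ := 0, a₄ := (a : ℚ), a₆ := (b : ℚ) } :
              WeierstrassCurve ℚ))) = 0

/-- `K = ℚ(√d_1, …, √d_n)` -/
def IsMultiquadratic {n : ℕ} (d : Fin n → ℤ) (K : Type) [Field K] [NumberField K] : Prop :=
  ∃ x : Fin n → K, (∀ i, x i ^ 2 = (d i : K)) ∧ IntermediateField.adjoin ℚ (Set.range x) = ⊤

/-- the group `E_M(K)` -/
abbrev EK (K : Type) [Field K] (M : ℤ) : Type :=
  WeierstrassCurve.Affine.Point (WeierstrassCurve.toAffine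
    ({ a₁ := 0, a₂ := 0, a₃ := 0, a₄ := (A M : K), a₆ := (B M : K) } : WeierstrassCurve K))

/-- the number `q_v` of elements of the residue field of a finite place `v` of `K` -/
noncomputable def qv (K : Type) [Field K] (v : HeightOneSpectrum (𝓞 K)) : ℕ :=
  Nat.card (𝓞 K ⧸ v.asIdeal)

/-- `a_v = q_v + 1 - #E_M(k_v)`, that is `q_v` minus the number of affine points -/
noncomputable def av (K : Type) [Field K] (M : ℤ) (v : HeightOneSpectrum (𝓞 K)) : ℤ :=
  (qv K v : ℤ) - Nat.card {z : (𝓞 K ⧸ v.asIdeal) × (𝓞 K ⧸ v.asIdeal) //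
    z.2 ^ 2 = z.1 ^ 3 + (A M : 𝓞 K ⧸ v.asIdeal) * z.1 + (B M : 𝓞 K ⧸ v.asIdeal)}

open Classical in
/-- `F` is entire and is, for `Re s > 3/2`, the `L`-function of `E_M` over `K` without the Euler
factors at the places `v ∣ 42 M m` -/
def IsL (K : Type) [Field K] (M m : ℤ) (F : ℂ → ℂ) : Prop :=
  Differentiable ℂ F ∧ ∀ s : ℂ, (3 : ℝ) / 2 < s.re →
    HasProd (fun v : HeightOneSpectrum (𝓞 K) =>
      if ((42 * M * m : ℤ) : 𝓞 K) ∈ v.asIdeal then 1 else
        (1 - (av K M v : ℂ) * (qv K v : ℂ) ^ (-s) + (qv K v : ℂ) ^ (1 - 2 * s))⁻¹) (F s)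

/-- The rank form with order of vanishing and rank `0` for `E_M` over `K = ℚ(√d_1, …, √d_k)` and for
its twists over `ℚ` by the products of the `d_i`: all the curves `E_D`, `D = M ∏_{i ∈ T} d_i`, satisfy it over `ℚ`; the field `K`
is of degree `2 ^ k`, `E_M(K)` is finite, and `L(E_M/K, s)` is entire and does not vanish at `s = 1`. -/
def Holds {k : ℕ} (M : ℤ) (d : Fin k → ℤ) : Prop :=
  (∀ T : Finset (Fin k), BSDRankZero (A (M * ∏ i ∈ T, d i)) (B (M * ∏ i ∈ T, d i))) ∧
  ∀ (K : Type) [Field K] [NumberField K], IsMultiquadratic d K →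
    Module.finrank ℚ K = 2 ^ k ∧ Finite (EK K M) ∧ (∃ F : ℂ → ℂ, IsL K M (∏ i, d i) F) ∧
    ∀ F : ℂ → ℂ, IsL K M (∏ i, d i) F → F 1 ≠ 0

theorem bsd_of {D : ℤ} (hD : D ≠ 0) (h : Y687.WB D) : BSDRankZero (A D) (B D) := by
  obtain ⟨⟨f, hf, hfp, hf1⟩, hfin⟩ := h
  obtain ⟨F, h1, h2, h3, h4⟩ := Y687.rankBSD hf hfp hf1 hfin
  refine ⟨?_, F, h1, h2, ?_, h4⟩
  · have e : 4 * A D ^ 3 + 27 * B D ^ 2 = (4 * 5805 ^ 3 + 27 * 285714 ^ 2) * D ^ 6 := by
      unfold A B
      ring
    rw [e]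
    exact mul_ne_zero (by norm_num) (pow_ne_zero 6 hD)
  · unfold A B
    rw [h3, h4]
    rfl

theorem holds_of {k : ℕ} {M : ℤ} {d : Fin k → ℤ} (h : R494.BS.GoodAll M d) : Holds M d := by
  classical
  obtain ⟨hg, hind⟩ := h
  refine ⟨fun T => bsd_of (hg T).1.1.ne_zero (Y687.MQ.WB_D (hg T).1 (hg T).2), ?_⟩
  intro K _ _ ⟨x, hx, hK⟩
  have hT : Y687.MQ.AdT Y687.MQ.ClG M d := by
    intro T
    obtain ⟨P, T', h2, h3⟩ := Y687.MQ.good_iff.1 (hg T)
    exact ⟨P, T', 1, h2, one_ne_zero, by rw [h3]; ring⟩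
  obtain ⟨⟨F, hF, hF1⟩, hfin⟩ := Y687.MQ.field_thm (fun P T => Y687.MQ.WB_all) hT hind K x hx hK
  have hL : ∀ G : ℂ → ℂ, IsL K M (∏ i, d i) G ↔
      Y19.QT.IsLFunK K (A M) (B M) (∏ i, d i) G := by
    intro G
    have key : ∀ v : HeightOneSpectrum (𝓞 K),
        (((42 * M * ∏ i, d i : ℤ) : 𝓞 K) ∈ v.asIdeal ↔
          ((2 * (4 * A M ^ 3 + 27 * B M ^ 2) * ∏ i, d i : ℤ) : 𝓞 K) ∈ v.asIdeal) := by
      intro v
      have := v.isPrime
      constructor
      · intro h1
        have e : ((2 * (4 * A M ^ 3 + 27 * B M ^ 2) * ∏ i, d i : ℤ) : 𝓞 K) =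
            ((2 ^ 14 * 3 ^ 11 * 7 ^ 2 * M ^ 5 : ℤ) : 𝓞 K) *
              ((42 * M * ∏ i, d i : ℤ) : 𝓞 K) := by
          rw [← Int.cast_mul]
          congr 1
          unfold A B
          ring
        rw [e]
        exact Ideal.mul_mem_left _ _ h1
      · intro h1
        refine Ideal.IsPrime.mem_of_pow_mem this 15 ?_
        have e : ((42 * M * ∏ i, d i : ℤ) : 𝓞 K) ^ 15 =
            ((3 ^ 3 * 7 ^ 12 * M ^ 9 * (∏ i, d i) ^ 14 : ℤ) : 𝓞 K) *
              ((2 * (4 * A M ^ 3 + 27 * B M ^ 2) * ∏ i, d i : ℤ) : 𝓞 K) := by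
          rw [← Int.cast_mul, ← Int.cast_pow]
          congr 1
          unfold A B
          ring
        rw [e]
        exact Ideal.mul_mem_left _ _ h1
    unfold IsL Y19.QT.IsLFunK
    simp only [key]
    rfl
  refine ⟨?_, hfin, ⟨F, (hL F).2 hF⟩, fun G hG => ?_⟩
  · have := Y73.QMQ1.gal_of hx hK
    rw [← IsGalois.card_aut_eq_finrank]
    exact Y73.QMQ1.card_gal hind hx hK
  · rw [Y687.MQ.isLFunK_unique ((hL G).1 hG) hF]
    exact hF1

/-- the `k + 1` consecutive primes from the one of index `s` on are `≡ r` modulo `m` and contained in an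
interval of length `C` -/
def Block (m r k C s : ℕ) : Prop :=
  Nat.nth Nat.Prime (s + k) ≤ Nat.nth Nat.Prime s + C ∧
    ∀ i ≤ k, Nat.nth Nat.Prime (s + i) ≡ r [MOD m]

theorem result (m r : ℕ) (hm : 0 < m) (h56 : 56 ∣ m) (hr : r.Coprime m) :
    (r % 8 = 1 → (r % 7 = 1 ∨ r % 7 = 2 ∨ r % 7 = 4) →
      (∀ q : ℕ, q.Prime → q % 8 = 3 → (q % 7 = 3 ∨ q % 7 = 5 ∨ q % 7 = 6) → q ≠ 3 → ¬ q ∣ m →
        ∃ M : ℤ, (M = 1 ∨ M = -(q : ℤ)) ∧ ∀ k : ℕ, ∃ C : ℕ,
          {n : ℕ | ∃ p : Fin k → ℕ, StrictMono p ∧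
            (∀ i, (p i).Prime ∧ p i ≡ r [MOD m] ∧ n ≤ p i ∧ p i ≤ n + C) ∧
            Holds M (fun i => (p i : ℤ))}.Infinite) ∧
      ∀ k : ℕ, ∃ C : ℕ, {s : ℕ | Block m r k C s ∧
        {q : ℕ | q.Prime ∧
          Holds (-(q : ℤ)) (fun i : Fin k => (Nat.nth Nat.Prime (s + i) : ℤ))}.Infinite}.Infinite) ∧
    (r % 8 = 3 → (r % 7 = 3 ∨ r % 7 = 5 ∨ r % 7 = 6) →
      ∀ k : ℕ, ∃ C : ℕ, {s : ℕ | Block m r k C s ∧
        Holds 1 (fun i : Fin k => -(Nat.nth Nat.Prime (s + i) : ℤ))}.Infinite) := by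
  refine ⟨fun h8 h7 => ⟨fun q hq hq8 hq7 hq3 hqm => ?_, fun k => ?_⟩, fun h8 h7 k => ?_⟩
  · obtain ⟨M, hM, h⟩ := R494.BS.split_main m r q hm h56 hr h8 h7 ⟨hq, Or.inl hq8, hq7⟩ hq8 hq3 hqm
    refine ⟨M, hM, fun k => ?_⟩
    obtain ⟨C, hC⟩ := h k
    refine ⟨C, hC.mono ?_⟩
    rintro n ⟨p, h1, h2, h3⟩
    exact ⟨p, h1, h2, holds_of h3⟩
  · obtain ⟨C, hC⟩ := R494.BS.split_consec m r hm h56 hr h8 h7 k
    refine ⟨C, ?_⟩
    rw [Set.infinite_iff_exists_gt]
    intro N0
    obtain ⟨s, hs, h1, h2, h3⟩ := hC N0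
    exact ⟨s, ⟨⟨h1, h2⟩, h3.mono fun q hq => ⟨hq.1, holds_of hq.2⟩⟩, hs⟩
  · obtain ⟨C, hC⟩ := R494.BS.inert_main m r hm h56 hr h8 h7 k
    refine ⟨C, ?_⟩
    rw [Set.infinite_iff_exists_gt]
    intro N0
    obtain ⟨s, hs, h1, h2, h3⟩ := hC N0
    exact ⟨s, ⟨⟨h1, h2⟩, holds_of h3⟩, hs⟩

end Pool.Agent.Results.MP_696deb_nt.MultiquadraticBoundedGaps
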